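import Pool.Agent.MP_97806e_pr.H84.Defs

namespace Pool.Agent.MP_97806e_pr.H84

open Filter Topology Set Asymptotics

lemma expansion_of_dyadic {f : ℝ → ℝ} {a : ℝ} (ha : a ≤ 1 / 2)
    (hmono : ∀ x y, a ≤ x → x ≤ y → y ≤ 1 → f x ≤ f y) (hnn : ∀ x, 0 ≤ f x)
    (h : ∀ᶠ k : ℕ in atTop, f (a + (1 / 4) ^ k) ≤ (1 / 32) ^ k) : HasExpansion f a 2 := by
  refine ⟨fun _ => 0, ?_⟩
  simp only [zero_mul, Finset.sum_const_zero, sub_zero]
  rw [isLittleO_iff]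
  intro c hc
  have h1 : ∀ᶠ k : ℕ in atTop, (1 / 2 : ℝ) ^ k < c / 16 :=
    (tendsto_pow_atTop_nhds_zero_of_lt_one (by norm_num) (by norm_num)).eventually
      (gt_mem_nhds (by positivity))
  obtain ⟨k0, hk0⟩ := eventually_atTop.mp ((h.and h1).and (eventually_ge_atTop 1))
  have hpos : (0 : ℝ) < (1 / 4) ^ k0 := by positivity
  filter_upwards [Ioc_mem_nhdsGT hpos] with ε hε
  obtain ⟨n, hn1, hn2⟩ := exists_nat_pow_near_of_lt_one hε.1
    (hε.2.trans (pow_le_one₀ (by norm_num) (by norm_num))) (by norm_num : (0 : ℝ) < 1 / 4)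
    (by norm_num)
  have hn : k0 ≤ n := by
    have := (pow_lt_pow_iff_right_of_lt_one₀ (by norm_num : (0 : ℝ) < 1 / 4) (by norm_num)).mp
      (hn1.trans_le hε.2)
    omega
  obtain ⟨⟨e1, e2⟩, e3⟩ := hk0 n hn
  have e4 : (1 / 4 : ℝ) ^ n ≤ (1 / 4) ^ 1 := pow_le_pow_of_le_one (by norm_num) (by norm_num) e3
  have e5 := hmono (a + ε) (a + (1 / 4) ^ n) (by linarith [hε.1]) (by linarith) (by linarith)
  rw [Real.norm_eq_abs, Real.norm_eq_abs, abs_of_nonneg (hnn _), abs_of_nonneg (sq_nonneg _)]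
  have e6 : ((1 / 4 : ℝ) ^ (n + 1)) ^ 2 ≤ ε ^ 2 := pow_le_pow_left₀ (by positivity) hn1.le 2
  have e7 : (1 / 32 : ℝ) ^ n = (1 / 2) ^ n * (16 * ((1 / 4) ^ (n + 1)) ^ 2) := by
    rw [← pow_mul, mul_comm (n + 1) 2, pow_mul, pow_succ,
      show (1 / 32 : ℝ) = (1 / 2) * (1 / 4) ^ 2 by norm_num, mul_pow]
    ring
  calc f (a + ε) ≤ (1 / 2) ^ n * (16 * ((1 / 4) ^ (n + 1)) ^ 2) := by rw [← e7]; linarith
    _ ≤ (c / 16) * (16 * ε ^ 2) := by gcongr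
    _ = c * ε ^ 2 := by ring

lemma not_smooth {f : ℝ → ℝ} {a : ℝ} {x δ : ℕ → ℝ} (hδ : ∀ j, 0 < δ j)
    (hx : ∀ j, a ≤ x j - δ j) (hlim : Tendsto (fun j => x j + δ j) atTop (𝓝 a))
    (h : ∀ᶠ j : ℕ in atTop, 2 ^ j * δ j ^ 2 ≤ f (x j + δ j) - 2 * f (x j) + f (x j - δ j)) :
    ¬ SmoothRight f a 2 := by
  rintro ⟨d, hd, hf⟩
  have hg : ContDiffOn ℝ 1 (derivWithin f (Ico a (a + d))) (Ico a (a + d)) :=
    hf.derivWithin (uniqueDiffOn_Ico _ _) (by norm_num)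
  have hsub : Icc a (a + d / 2) ⊆ Ico a (a + d) := Icc_subset_Ico_right (by linarith)
  obtain ⟨K, hK⟩ := (hg.mono hsub).exists_lipschitzOnWith one_ne_zero (convex_Icc _ _) isCompact_Icc
  have h1 : ∀ᶠ j : ℕ in atTop, x j + δ j < a + d / 2 := hlim.eventually (gt_mem_nhds (by linarith))
  have h2 : ∀ᶠ j : ℕ in atTop, 2 * (K : ℝ) < 2 ^ j :=
    (tendsto_pow_atTop_atTop_of_one_lt (by norm_num : (1 : ℝ) < 2)).eventually_gt_atTop _
  obtain ⟨j, ⟨e1, e2⟩, e3⟩ := ((h.and h1).and h2).exists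
  have hδj := hδ j
  have hxj := hx j
  have hder : ∀ y ∈ Ioo a (a + d), HasDerivAt f (derivWithin f (Ico a (a + d)) y) y := by
    intro y hy
    exact ((hf.differentiableOn (by norm_num)) y ⟨hy.1.le, hy.2⟩).hasDerivWithinAt.hasDerivAt
      (Ico_mem_nhds hy.1 hy.2)
  obtain ⟨c1, hc1, e4⟩ := exists_hasDerivAt_eq_slope f (derivWithin f (Ico a (a + d)))
    (a := x j) (b := x j + δ j) (by linarith)
    (hf.continuousOn.mono fun y hy => ⟨by linarith [hy.1], by linarith [hy.2]⟩)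
    fun y hy => hder y ⟨by linarith [hy.1], by linarith [hy.2]⟩
  obtain ⟨c2, hc2, e5⟩ := exists_hasDerivAt_eq_slope f (derivWithin f (Ico a (a + d)))
    (a := x j - δ j) (b := x j) (by linarith)
    (hf.continuousOn.mono fun y hy => ⟨by linarith [hy.1], by linarith [hy.2]⟩)
    fun y hy => hder y ⟨by linarith [hy.1], by linarith [hy.2]⟩
  have e6 := hK.dist_le_mul c1 ⟨by linarith [hc1.1], by linarith [hc1.2]⟩ c2
    ⟨by linarith [hc2.1], by linarith [hc2.2]⟩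
  rw [Real.dist_eq, Real.dist_eq, abs_of_pos (show 0 < c1 - c2 by linarith [hc1.1, hc2.2]), e4, e5,
    add_sub_cancel_left, sub_sub_cancel, ← sub_div] at e6
  have e7 := (le_abs_self _).trans e6
  rw [div_le_iff₀ hδj] at e7
  have e8 : (K : ℝ) * (c1 - c2) * δ j ≤ K * (2 * δ j) * δ j := by
    gcongr; linarith [hc1.2, hc2.1]
  have e9 : 2 * (K : ℝ) * δ j ^ 2 < 2 ^ j * δ j ^ 2 := by gcongr
  nlinarith

/-- `tt n s = n s - 1 + (1-s)^n` -/
def tt (n : ℕ) (s : ℝ) : ℝ := n * s - 1 + (1 - s) ^ n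

lemma tt_nonneg (n : ℕ) {s : ℝ} (h1 : s ≤ 1) : 0 ≤ tt n s := by
  have := one_add_mul_le_pow (a := -s) (by linarith) n
  unfold tt
  rw [← sub_eq_add_neg] at this
  linarith

lemma tt_ge (n : ℕ) {s : ℝ} (h1 : s ≤ 1) : n * s - 1 ≤ tt n s := by
  have : 0 ≤ (1 - s) ^ n := pow_nonneg (by linarith) n
  unfold tt; linarith

lemma tt_le (n : ℕ) {s : ℝ} (h0 : 0 ≤ s) (h1 : s ≤ 1) : tt n s ≤ n * s := by
  have : (1 - s) ^ n ≤ 1 := pow_le_one₀ (by linarith) (by linarith)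
  unfold tt; linarith

lemma tt_le_sq (n : ℕ) {s : ℝ} (h0 : 0 ≤ s) (h1 : s ≤ 1) : tt n s ≤ (n * s) ^ 2 := by
  unfold tt
  induction n with
  | zero => simp
  | succ n ih =>
    have h2 : (1 - s) ^ (n + 1) ≤ (1 - s) * ((n * s) ^ 2 - n * s + 1) := by
      rw [pow_succ']; gcongr; linarith
    have h3 : (0 : ℝ) ≤ n := Nat.cast_nonneg n
    push_cast
    nlinarith [mul_nonneg h0 (sq_nonneg ((n : ℝ) * s)), mul_nonneg h3 (sq_nonneg s), sq_nonneg s]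

lemma one_sub_pow_mul_le (n : ℕ) {s : ℝ} (h0 : 0 ≤ s) (h1 : s ≤ 1) :
    (1 - s) ^ n * (1 + n * s) ≤ 1 := by
  have h2 := one_add_mul_le_pow (a := s) (by linarith) n
  calc (1 - s) ^ n * (1 + n * s) ≤ (1 - s) ^ n * (1 + s) ^ n :=
        mul_le_mul_of_nonneg_left h2 (pow_nonneg (by linarith) n)
    _ = (1 - s ^ 2) ^ n := by rw [← mul_pow]; ring
    _ ≤ 1 := pow_le_one₀ (by nlinarith) (by nlinarith)

lemma tt_ge_sq (n : ℕ) {s : ℝ} (h0 : 0 ≤ s) (h1 : s ≤ 1) (h2 : n * s ≤ 2) :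
    n * (n - 1) * s ^ 2 / 6 ≤ tt n s := by
  unfold tt
  induction n with
  | zero => simp
  | succ n ih =>
    push_cast at h2 ⊢
    have h3 : (0 : ℝ) ≤ n * s := by positivity
    have h4 := ih (by linarith)
    have h5 := one_sub_pow_mul_le n h0 h1
    have h6 : 0 ≤ (1 - s) ^ n := pow_nonneg (by linarith) n
    have h7 : (1 - s) ^ n ≤ 1 - n * s / 3 := by
      have : (1 - s) ^ n * (1 + n * s) ≤ (1 - n * s / 3) * (1 + n * s) := by nlinarith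
      exact le_of_mul_le_mul_right this (by linarith)
    rw [pow_succ (1 - s) n]
    nlinarith [mul_le_mul_of_nonneg_left h7 h0]

lemma pow_sub_pow_le' (n : ℕ) {a b : ℝ} (h0 : 0 ≤ a) (hab : a ≤ b) (h1 : b ≤ 1) :
    b ^ n - a ^ n ≤ n * (b - a) := by
  induction n with
  | zero => simp
  | succ n ih =>
    have h2 : a ^ n ≤ 1 := pow_le_one₀ h0 (hab.trans h1)
    have h3 : a ^ n ≤ b ^ n := pow_le_pow_left₀ h0 hab n
    have h4 : b * (b ^ n - a ^ n) ≤ 1 * (b ^ n - a ^ n) := by gcongr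
    have h5 : (b - a) * a ^ n ≤ (b - a) * 1 := by gcongr
    push_cast
    rw [pow_succ', pow_succ']
    nlinarith

lemma var_le (n : ℕ) {s : ℝ} (h0 : 0 ≤ s) (h1 : 2 * s ≤ 1) :
    1 - 2 * (1 - s) ^ n + (1 - 2 * s) ^ n ≤ 1 ∧
    1 - 2 * (1 - s) ^ n + (1 - 2 * s) ^ n ≤ (n * s) ^ 2 := by
  have h2 : (1 - 2 * s) ^ n ≤ ((1 - s) ^ n) ^ 2 := by
    rw [← pow_mul, mul_comm n 2, pow_mul]
    exact pow_le_pow_left₀ (by linarith) (by nlinarith) n
  have h3 : 0 ≤ (1 - s) ^ n := pow_nonneg (by linarith) n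
  have h4 : (1 - s) ^ n ≤ 1 := pow_le_one₀ (by linarith) (by linarith)
  have h5 := tt_nonneg n (s := s) (by linarith)
  unfold tt at h5
  constructor
  · nlinarith
  · have : (1 - (1 - s) ^ n) ^ 2 ≤ (n * s) ^ 2 :=
      pow_le_pow_left₀ (by linarith) (by linarith) 2
    nlinarith

end Pool.Agent.MP_97806e_pr.H84
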