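import Pool.Agent.MP_97806e_pr.H84.Defs

namespace Pool.Agent.MP_97806e_pr.H84

open MeasureTheory Filter Topology Set

/-- the lacunary sequence of offspring numbers -/
@[irreducible] def XX (j : ℕ) : ℕ := 2 ^ (16 ^ (j + 1))

lemma XX_succ (j : ℕ) : XX (j + 1) = XX j ^ 16 := by
  unfold XX; rw [← pow_mul, ← pow_succ]

lemma XX_ge (j : ℕ) : 65536 * (2 ^ j) ^ 16 ≤ XX j := by
  unfold XX
  rw [← pow_mul, show 65536 = 2 ^ 16 by norm_num, ← pow_add]
  refine Nat.pow_le_pow_right (by norm_num) ?_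
  induction j with
  | zero => simp
  | succ j ih => rw [pow_succ]; omega

lemma XX_strictMono : StrictMono XX := fun _ _ h => by
  unfold XX
  exact Nat.pow_lt_pow_right (by norm_num) (Nat.pow_lt_pow_right (by norm_num) (by omega))

lemma XX_ge' (j : ℕ) : 65536 ≤ XX j :=
  le_trans (Nat.le_mul_of_pos_right _ (by positivity)) (XX_ge j)

/-- the properties of the offspring law that are used -/
structure Good (μ : Measure ℕ) : Prop where
  prob : IsProbabilityMeasure μ
  int : Integrable (fun n : ℕ => (n : ℝ)) μ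
  mean_ge : 5 / 2 ≤ ∫ n, (n : ℝ) ∂μ
  mean_le : ∫ n, (n : ℝ) ∂μ ≤ 3
  two : μ {n | n < 2} = 0
  tailMean : ∀ j, ∫ n, (if XX j < n then (n : ℝ) else 0) ∂μ = (1 / 2) ^ (j + 1)
  tailProb : ∀ j, ∫ n, (if XX j < n then (1 : ℝ) else 0) ∂μ ≤ 1 / (XX j : ℝ) ^ 16
  atom : ∀ j, (1 / 2) ^ (j + 1) / (XX j : ℝ) ≤ μ.real {XX j}

lemma hasSum_tail (j : ℕ) :
    HasSum (fun i => if j < i then (1 / 2 : ℝ) ^ (i + 1) else 0) ((1 / 2) ^ (j + 1)) := by
  rw [← hasSum_nat_add_iff' (j + 1)]
  have h0 : ∑ i ∈ Finset.range (j + 1), (if j < i then (1 / 2 : ℝ) ^ (i + 1) else 0) = 0 :=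
    Finset.sum_eq_zero fun i hi => if_neg (by have := Finset.mem_range.mp hi; omega)
  rw [h0, sub_zero]
  have := hasSum_geometric_two.mul_left ((1 / 2 : ℝ) ^ (j + 2))
  rw [show (1 / 2 : ℝ) ^ (j + 2) * 2 = (1 / 2) ^ (j + 1) by ring] at this
  refine this.congr_fun fun n => ?_
  rw [if_pos (by omega)]; ring

lemma exists_good : ∃ μ, Good μ := by
  let π : ℕ → ℝ := fun i => (1 / 2) ^ (i + 1) / (XX i : ℝ)
  have hX : ∀ i, (65536 : ℝ) ≤ XX i := fun i => by exact_mod_cast XX_ge' i
  have hX0 : ∀ i, (0 : ℝ) < XX i := fun i => by linarith [hX i]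
  have hπ0 : ∀ i, 0 ≤ π i := fun i => by simp only [π]; have := hX0 i; positivity
  have hgeo : HasSum (fun i : ℕ => (1 / 2 : ℝ) ^ (i + 1)) 1 := by
    have := hasSum_geometric_two.mul_left (1 / 2 : ℝ)
    rw [show (1 / 2 : ℝ) * 2 = 1 by ring] at this
    refine this.congr_fun fun n => ?_
    ring
  have hπle : ∀ i, π i ≤ (1 / 2) ^ (i + 1) / 4 := fun i => by
    simp only [π]; gcongr; linarith [hX i]
  have hπs : Summable π := Summable.of_nonneg_of_le hπ0 hπle (hgeo.summable.div_const 4)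
  have hS : ∑' i, π i ≤ 1 / 4 := hasSum_le hπle hπs.hasSum (hgeo.div_const 4)
  have hS0 : 0 ≤ ∑' i, π i := tsum_nonneg hπ0
  let w : ℕ → ℝ := fun i => match i with
    | 0 => 1 - ∑' i, π i
    | i + 1 => π i
  let v : ℕ → ℕ := fun i => match i with
    | 0 => 2
    | i + 1 => XX i
  have hw0 : ∀ i, 0 ≤ w i := fun i => by
    cases i with
    | zero => simp only [w]; linarith
    | succ i => exact hπ0 i
  have hw : HasSum w 1 := by
    rw [← hasSum_nat_add_iff' 1]
    simpa [w] using hπs.hasSum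
  let μ : Measure ℕ := Measure.sum fun i => ENNReal.ofReal (w i) • Measure.dirac (v i)
  have hint : ∀ (f : ℕ → ℝ) (c : ℝ), HasSum (fun i => π i * f (XX i)) c →
      ∫ n, f n ∂μ = w 0 * f 2 + c := by
    intro f c hc
    rw [integral_sum_dirac (fun _ => ENNReal.ofReal_ne_top)]
    simp only [ENNReal.toReal_ofReal (hw0 _), smul_eq_mul]
    refine HasSum.tsum_eq ?_
    rw [← hasSum_nat_add_iff' 1]
    simpa [w, v] using hc
  have hπX : ∀ i, π i * (XX i : ℝ) = (1 / 2) ^ (i + 1) := fun i => by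
    simp only [π]; exact div_mul_cancel₀ _ (hX0 i).ne'
  have hmean : ∫ n, (n : ℝ) ∂μ = w 0 * (2 : ℕ) + 1 := hint _ _ (by simpa only [hπX] using hgeo)
  have h2 : ∀ j, ¬ XX j < 2 := fun j => by have := XX_ge' j; omega
  refine ⟨μ, hw.isProbabilityMeasure_sum_dirac hw0, ?_, ?_, ?_, ?_, ?_, ?_, ?_⟩
  · refine integrable_sum_dirac (fun _ => ENNReal.ofReal_ne_top) ?_
    simp only [ENNReal.toReal_ofReal (hw0 _), Real.norm_natCast]
    rw [← summable_nat_add_iff 1]
    simpa only [w, v, hπX] using hgeo.summable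
  · rw [hmean]; simp only [w]; push_cast; linarith
  · rw [hmean]; simp only [w]; push_cast; linarith
  · simp only [μ]
    rw [Measure.sum_apply _ .of_discrete]
    refine ENNReal.tsum_eq_zero.mpr fun i => ?_
    cases i with
    | zero => simp [v]
    | succ i => have := XX_ge' i; simp only [v]; simp; right; omega
  · intro j
    rw [hint _ ((1 / 2) ^ (j + 1)), if_neg (h2 j)]
    · simp
    · convert hasSum_tail j using 2 with i
      simp only [XX_strictMono.lt_iff_lt]
      split_ifs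
      · exact hπX i
      · simp
  · intro j
    have hle : ∀ i, π i * (if XX j < XX i then (1 : ℝ) else 0) ≤
        (if j < i then (1 / 2 : ℝ) ^ (i + 1) else 0) / (XX j : ℝ) ^ 16 := by
      intro i
      simp only [XX_strictMono.lt_iff_lt]
      split_ifs with h
      · simp only [π, mul_one]
        have : (XX j : ℝ) ^ 16 ≤ XX i := by
          have h3 := XX_strictMono.monotone (show j + 1 ≤ i from h)
          rw [XX_succ] at h3
          exact_mod_cast h3
        have := hX0 j
        gcongr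
      · simp
    have hs : Summable (fun i => π i * (if XX j < XX i then (1 : ℝ) else 0)) :=
      Summable.of_nonneg_of_le (fun i => mul_nonneg (hπ0 i) (by split_ifs <;> norm_num)) hle
        ((hasSum_tail j).summable.div_const _)
    rw [hint (fun n => if XX j < n then (1 : ℝ) else 0) _ hs.hasSum, if_neg (h2 j), mul_zero,
      zero_add]
    refine (hasSum_le hle hs.hasSum ((hasSum_tail j).div_const _)).trans ?_
    exact div_le_div_of_nonneg_right (pow_le_one₀ (by norm_num) (by norm_num))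
      (pow_nonneg (hX0 j).le _)
  · intro j
    have : IsProbabilityMeasure μ := hw.isProbabilityMeasure_sum_dirac hw0
    have h1 := Measure.le_sum (fun i => ENNReal.ofReal (w i) • Measure.dirac (v i)) (j + 1) {XX j}
    simp only [Measure.smul_apply, v, w, smul_eq_mul, Measure.dirac_apply_of_mem (mem_singleton _),
      mul_one] at h1
    exact (ENNReal.ofReal_le_iff_le_toReal (measure_ne_top μ _)).mp h1

end Pool.Agent.MP_97806e_pr.H84
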