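import Pool.Agent.MP_97806e_pr.H84.Quench
import Pool.Agent.MP_97806e_pr.H84.Analysis
import Pool.Agent.MP_97806e_pr.H84.Law

namespace Pool.Agent.MP_97806e_pr.H84

open MeasureTheory ProbabilityTheory Filter Topology Set

/-- the mean -/
noncomputable def mean (μ : Measure ℕ) : ℝ := ∫ n, (n : ℝ) ∂μ

/-- `H s = E[N s - 1 + (1-s)^N]` -/
noncomputable def HH (μ : Measure ℕ) (s : ℝ) : ℝ := ∫ n, tt n s ∂μ

variable {μ : Measure ℕ} (hμ : Good μ)
include hμ

lemma Good.int_tt {s : ℝ} (hs : s ∈ Icc (0 : ℝ) 1) : Integrable (fun n : ℕ => tt n s) μ := by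
  have := hμ.prob
  exact ((hμ.int.mul_const s).sub (integrable_const 1)).add
    (integrable_pow μ ⟨by linarith [hs.2], by linarith [hs.1]⟩)

lemma Good.HH_eq {s : ℝ} (hs : s ∈ Icc (0 : ℝ) 1) : HH μ s = mean μ * s - FF μ s := by
  have := hμ.prob
  have h1 : Integrable (fun n : ℕ => (n : ℝ) * s - 1) μ :=
    (hμ.int.mul_const s).sub (integrable_const 1)
  unfold HH tt FF mean
  rw [integral_add h1 (integrable_pow μ ⟨by linarith [hs.2], by linarith [hs.1]⟩),
    integral_sub (hμ.int.mul_const s) (integrable_const 1), integral_mul_const]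
  simp only [integral_const, probReal_univ, smul_eq_mul, mul_one]
  ring

lemma Good.int_tailMean (j : ℕ) : Integrable (fun n : ℕ => if XX j < n then (n : ℝ) else 0) μ :=
  hμ.int.mono' (Measurable.of_discrete).aestronglyMeasurable (ae_of_all _ fun n => by
    split_ifs <;> simp)

lemma Good.int_tailProb (j : ℕ) : Integrable (fun n : ℕ => if XX j < n then (1 : ℝ) else 0) μ := by
  have := hμ.prob
  exact integrable_of_mem μ .of_discrete fun n => by split_ifs <;> simp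

lemma Good.HH_ge_atom (j : ℕ) {s : ℝ} (hs : s ∈ Icc (0 : ℝ) 1) :
    (1 / 2) ^ (j + 1) / (XX j : ℝ) * tt (XX j) s ≤ HH μ s := by
  have := hμ.prob
  have h1 := setIntegral_le_integral (s := {XX j}) (hμ.int_tt hs)
    (ae_of_all _ fun n => tt_nonneg n hs.2)
  rw [integral_singleton, smul_eq_mul] at h1
  exact (mul_le_mul_of_nonneg_right (hμ.atom j) (tt_nonneg _ hs.2)).trans h1

lemma Good.HH_ge_tail (j : ℕ) {s : ℝ} (hs : s ∈ Icc (0 : ℝ) 1) :
    (1 / 2) ^ (j + 1) * s - 1 / (XX j : ℝ) ^ 16 ≤ HH μ s := by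
  have h1 := integral_mono (((hμ.int_tailMean j).mul_const s).sub (hμ.int_tailProb j))
    (hμ.int_tt hs) (fun n => by
      simp only [Pi.sub_apply]
      split_ifs
      · exact tt_ge n hs.2
      · simpa using tt_nonneg n hs.2)
  rw [integral_sub' ((hμ.int_tailMean j).mul_const s) (hμ.int_tailProb j), integral_mul_const,
    hμ.tailMean] at h1
  have := hμ.tailProb j
  unfold HH
  linarith

omit hμ in
lemma sq_le_of_le {n k : ℕ} (h : ¬ k < n) (s : ℝ) : ((n : ℝ) * s) ^ 2 ≤ n * (k * s ^ 2) := by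
  have h1 : (n : ℝ) ≤ k := by exact_mod_cast not_lt.mp h
  have h2 : (0 : ℝ) ≤ n := Nat.cast_nonneg n
  rw [mul_pow, pow_two, mul_assoc]
  gcongr

lemma Good.HH_le (j : ℕ) {s : ℝ} (hs : s ∈ Icc (0 : ℝ) 1) :
    HH μ s ≤ (1 / 2) ^ (j + 1) * s + 3 * (XX j * s ^ 2) := by
  have h1 := integral_mono (hμ.int_tt hs)
    (((hμ.int_tailMean j).mul_const s).add (hμ.int.mul_const (XX j * s ^ 2))) (fun n => by
      simp only [Pi.add_apply]
      split_ifs with h
      · have := tt_le n hs.1 hs.2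
        have : (0 : ℝ) ≤ n * (XX j * s ^ 2) := by positivity
        linarith
      · have := tt_le_sq n hs.1 hs.2
        have := sq_le_of_le h s
        linarith)
  rw [integral_add' ((hμ.int_tailMean j).mul_const s) (hμ.int.mul_const _), integral_mul_const,
    integral_mul_const, hμ.tailMean] at h1
  have h2 : (∫ n, (n : ℝ) ∂μ) * (XX j * s ^ 2) ≤ 3 * (XX j * s ^ 2) :=
    mul_le_mul_of_nonneg_right hμ.mean_le (by positivity)
  unfold HH
  linarith

lemma Good.VV_le (j : ℕ) {s : ℝ} (h0 : 0 ≤ s) (h1 : 2 * s ≤ 1) :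
    2 * FF μ s - FF μ (2 * s) ≤ 1 / (XX j : ℝ) ^ 16 + 3 * (XX j * s ^ 2) := by
  have := hμ.prob
  have i1 := integrable_pow μ (x := 1 - s) ⟨by linarith, by linarith⟩
  have i2 := integrable_pow μ (x := 1 - 2 * s) ⟨by linarith, by linarith⟩
  have i3 : Integrable (fun n : ℕ => 1 - 2 * (1 - s) ^ n) μ :=
    (integrable_const 1).sub (i1.const_mul 2)
  have h3 := integral_mono (i3.add i2)
    ((hμ.int_tailProb j).add (hμ.int.mul_const (XX j * s ^ 2))) (fun n => by
      simp only [Pi.add_apply]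
      obtain ⟨e1, e2⟩ := var_le n h0 h1
      split_ifs with h
      · have : (0 : ℝ) ≤ n * (XX j * s ^ 2) := by positivity
        linarith
      · have := sq_le_of_le h s
        linarith)
  rw [integral_add' (hμ.int_tailProb j) (hμ.int.mul_const _), integral_mul_const,
    integral_add' i3 i2, integral_sub (integrable_const 1) (i1.const_mul 2),
    integral_const_mul] at h3
  simp only [integral_const, probReal_univ, smul_eq_mul, mul_one] at h3
  have h2 : (∫ n, (n : ℝ) ∂μ) * (XX j * s ^ 2) ≤ 3 * (XX j * s ^ 2) :=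
    mul_le_mul_of_nonneg_right hμ.mean_le (by positivity)
  have := hμ.tailProb j
  unfold FF
  linarith

lemma Good.FF_lip {a b : ℝ} (h0 : 0 ≤ a) (hab : a ≤ b) (h1 : b ≤ 1) :
    FF μ b - FF μ a ≤ 3 * (b - a) := by
  have := hμ.prob
  have i1 := integrable_pow μ (x := 1 - a) ⟨by linarith, by linarith⟩
  have i2 := integrable_pow μ (x := 1 - b) ⟨by linarith, by linarith⟩
  have h3 := integral_mono (i1.sub i2) (hμ.int.mul_const (b - a)) (fun n => by
    have := pow_sub_pow_le' n (a := 1 - b) (b := 1 - a) (by linarith) (by linarith) (by linarith)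
    simp only [Pi.sub_apply]
    linarith)
  rw [integral_sub' i1 i2, integral_mul_const] at h3
  have h2 : (∫ n, (n : ℝ) ∂μ) * (b - a) ≤ 3 * (b - a) :=
    mul_le_mul_of_nonneg_right hμ.mean_le (by linarith)
  unfold FF
  linarith

lemma Good.fix {p : ℝ} (hp : p ∈ Ioc (0 : ℝ) 1) :
    p * annealed μ p ∈ Icc (0 : ℝ) 1 ∧
    HH μ (p * annealed μ p) = (p * annealed μ p) * (mean μ - p⁻¹) := by
  have := hμ.prob
  have hp' : p ∈ Icc (0 : ℝ) 1 := ⟨hp.1.le, hp.2⟩
  have hG := annealed_mem μ hp'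
  have hs : p * annealed μ p ∈ Icc (0 : ℝ) 1 :=
    ⟨mul_nonneg hp'.1 hG.1, mul_le_one₀ hp.2 hG.1 hG.2⟩
  refine ⟨hs, ?_⟩
  rw [hμ.HH_eq hs, ← annealed_fix μ hp']
  have := hp.1.ne'
  field_simp

lemma Good.mean_inv : 1 / 3 ≤ (mean μ)⁻¹ ∧ (mean μ)⁻¹ ≤ 2 / 5 ∧ mean μ * (mean μ)⁻¹ = 1 := by
  have h1 : 5 / 2 ≤ mean μ := hμ.mean_ge
  have h2 : mean μ ≤ 3 := hμ.mean_le
  have h0 : 0 < mean μ := by linarith
  refine ⟨?_, ?_, mul_inv_cancel₀ h0.ne'⟩
  · rw [le_inv_comm₀ (by norm_num) h0]; linarith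
  · rw [inv_le_comm₀ h0 (by norm_num)]; linarith

/-- the cubic bound near criticality -/
lemma Good.cubic {ε : ℝ} (h0 : 0 ≤ ε) (h1 : (mean μ)⁻¹ + ε ≤ 1) :
    annealed μ ((mean μ)⁻¹ + ε) ≤ 2 ^ 18 * ε ^ 3 := by
  obtain ⟨a1, a2, a3⟩ := hμ.mean_inv
  have m2 : mean μ ≤ 3 := hμ.mean_le
  have m1 : 5 / 2 ≤ mean μ := hμ.mean_ge
  set p := (mean μ)⁻¹ + ε with hpdef
  have hp : p ∈ Ioc (0 : ℝ) 1 := ⟨by linarith, h1⟩
  obtain ⟨hs, hH⟩ := hμ.fix hp
  have := hμ.prob
  have hG := annealed_mem μ (p := p) ⟨hp.1.le, hp.2⟩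
  set s := p * annealed μ p with hsdef
  set u := mean μ - p⁻¹ with hu
  have hp3 : p⁻¹ ≤ 3 := by rw [inv_le_comm₀ hp.1 (by norm_num)]; linarith
  have hu9 : u ≤ 9 * ε := by
    have e : u = mean μ * ε * p⁻¹ := by
      have := hp.1.ne'
      rw [hu]; field_simp; rw [hpdef]; linear_combination a3
    rw [e]
    have : 0 ≤ p⁻¹ := inv_nonneg.mpr hp.1.le
    calc mean μ * ε * p⁻¹ ≤ 3 * ε * 3 := by gcongr
      _ = 9 * ε := by ring
  have hGs : annealed μ p ≤ 3 * s := by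
    rw [hsdef]; nlinarith [hG.1]
  suffices h : s ≤ 46656 * ε ^ 3 by
    have : 0 ≤ ε ^ 3 := by positivity
    linarith
  rcases hs.1.eq_or_lt with h | hs0
  · rw [← h]; positivity
  have hex : ∃ j, 2 ≤ (XX j : ℝ) * s := by
    obtain ⟨j, hj⟩ := exists_nat_ge (2 / s)
    refine ⟨j, ?_⟩
    have : (j : ℝ) ≤ XX j := by exact_mod_cast XX_strictMono.id_le j
    rw [div_le_iff₀ hs0] at hj
    nlinarith
  have hX0 : ∀ i, (0 : ℝ) < XX i := fun i => by
    have := XX_ge' i; exact_mod_cast (by omega : 0 < XX i)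
  have hA : ∀ j, 2 ≤ (XX j : ℝ) * s → (1 / 2) ^ (j + 2) ≤ u := by
    intro j hj
    have e1 := hμ.HH_ge_atom j hs
    have e2 := tt_ge (XX j) hs.2
    have e3 : (1 / 2) ^ (j + 1) / (XX j : ℝ) * (XX j * s / 2) ≤
        (1 / 2) ^ (j + 1) / (XX j : ℝ) * tt (XX j) s := by
      have := hX0 j
      gcongr; linarith
    have e4 : (1 / 2) ^ (j + 1) / (XX j : ℝ) * (XX j * s / 2) = s * (1 / 2) ^ (j + 2) := by
      have := (hX0 j).ne'
      field_simp; ring
    rw [hH] at e1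
    exact le_of_mul_le_mul_left (by linarith) hs0
  classical
  have hj := Nat.find_spec hex
  have hA' := hA _ hj
  rcases h : Nat.find hex with _ | i
  · rw [h] at hA'
    have : 1 / 36 ≤ ε := by norm_num at hA'; linarith
    have h3 : (1 / 36) ^ 3 ≤ ε ^ 3 := by gcongr
    linarith [hs.2]
  · rw [h] at hA'
    have hlt : (XX i : ℝ) * s ≤ 2 := (not_le.mp (Nat.find_min hex (by omega : i < Nat.find hex))).le
    have e1 := hμ.HH_ge_atom i hs
    have e2 := tt_ge_sq (XX i) hs.1 hs.2 hlt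
    have hXi : (65536 : ℝ) * (2 ^ i) ^ 16 ≤ XX i := by exact_mod_cast XX_ge i
    have hX2 : (65536 : ℝ) ≤ XX i := by exact_mod_cast XX_ge' i
    set X : ℝ := (XX i : ℝ) with hXdef
    set Y : ℝ := 2 ^ i with hY
    have hY1 : 1 ≤ Y := one_le_pow₀ (by norm_num)
    have e3 : (1 / 2) ^ (i + 1) / X * (X * (X / 2) * s ^ 2 / 6) ≤
        (1 / 2) ^ (i + 1) / X * tt (XX i) s := by
      refine mul_le_mul_of_nonneg_left (le_trans ?_ e2) (by positivity)
      gcongr; linarith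
    have e4 : (1 / 2) ^ (i + 1) / X * (X * (X / 2) * s ^ 2 / 6) = s * (X * s / (24 * Y)) := by
      rw [hY, one_div_pow]; field_simp; ring
    rw [hH] at e1
    have e5 : X * s / (24 * Y) ≤ u := le_of_mul_le_mul_left (by linarith) hs0
    have e6 : 1 / (8 * Y) ≤ u := by
      refine le_of_eq_of_le ?_ hA'
      rw [hY, one_div_pow]; field_simp; ring
    have e7 : (1 / (8 * Y)) ^ 2 * (X * s / (24 * Y)) ≤ (9 * ε) ^ 2 * (9 * ε) := by
      gcongr <;> linarith
    have e8 : s ≤ (1 / (8 * Y)) ^ 2 * (X * s / (24 * Y)) := by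
      have : (1 / (8 * Y)) ^ 2 * (X * s / (24 * Y)) = s * (X / (1536 * Y ^ 3)) := by
        field_simp; ring
      rw [this]
      refine le_mul_of_one_le_right hs.1 ?_
      rw [one_le_div (by positivity)]
      have : Y ^ 3 ≤ Y ^ 16 := pow_le_pow_right₀ hY1 (by norm_num)
      have : 0 ≤ Y ^ 3 := by positivity
      linarith
    have : 0 ≤ ε ^ 3 := by positivity
    nlinarith

end Pool.Agent.MP_97806e_pr.H84
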