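import Mathlib

namespace Pool.Agent.MP_97806e_pr.H84

open MeasureTheory ProbabilityTheory Filter Topology Asymptotics

/-- The open cluster of the root. Vertices are words over `ℕ` (Ulam-Harris labels), the root is
the empty word, the children of `u` are the words `u ++ [i]` with `i < N u`, and `ω v` is the
state of the edge joining `v` to its parent. -/
def cluster (N : List ℕ → ℕ) (ω : List ℕ → Bool) : Set (List ℕ) :=
  {v | ∀ (u : List ℕ) (i : ℕ), u ++ [i] <+: v → i < N u ∧ ω (u ++ [i]) = true}

/-- The quenched survival function: the probability, under Bernoulli(`p`) bond percolation on the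
tree with offspring numbers `N`, that the open cluster of the root is infinite. -/
noncomputable def quenched (N : List ℕ → ℕ) (p : ℝ) : ℝ :=
  (Measure.infinitePi fun _ : List ℕ =>
    bernoulliMeasure true false (Set.projIcc (0 : ℝ) 1 zero_le_one p)).real
      {ω | (cluster N ω).Infinite}

/-- The law of the Galton-Watson tree: independent offspring numbers with law `μ`. -/
noncomputable def gw (μ : Measure ℕ) : Measure (List ℕ → ℕ) :=
  Measure.infinitePi fun _ : List ℕ => μ

/-- The annealed survival function. -/
noncomputable def annealed (μ : Measure ℕ) (p : ℝ) : ℝ :=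
  ∫ N, quenched N p ∂(gw μ)

/-- `f` has an order `k` expansion at `x` from the right. -/
def HasExpansion (f : ℝ → ℝ) (x : ℝ) (k : ℕ) : Prop :=
  ∃ a : ℕ → ℝ, (fun ε : ℝ => f (x + ε) - ∑ j ∈ Finset.range (k + 1), a j * ε ^ j)
    =o[𝓝[>] 0] fun ε : ℝ => ε ^ k

/-- `f` is of class `C^k` at `x` from the right. -/
def SmoothRight (f : ℝ → ℝ) (x : ℝ) (k : ℕ) : Prop :=
  ∃ δ : ℝ, 0 < δ ∧ ContDiffOn ℝ k f (Set.Ico x (x + δ))

end Pool.Agent.MP_97806e_pr.H84
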