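import Pool.Agent.MP_97806e_pr.H84.Bounds

namespace Pool.Agent.MP_97806e_pr.H84

open MeasureTheory ProbabilityTheory Filter Topology Set

/-- step size -/
noncomputable def dd (j : ℕ) : ℝ := 1 / (XX j : ℝ) ^ 4
/-- base point -/
noncomputable def xx (μ : Measure ℕ) (j : ℕ) : ℝ := (mean μ - (1 / 2) ^ (j + 1) + dd j)⁻¹

lemma XX_real (j : ℕ) : (65536 : ℝ) ≤ XX j ∧ (1 : ℝ) ≤ 2 ^ j ∧
    (65536 : ℝ) * (2 ^ j) ^ 16 ≤ XX j :=
  ⟨by exact_mod_cast XX_ge' j, one_le_pow₀ (by norm_num), by exact_mod_cast XX_ge j⟩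

lemma dd_pos (j : ℕ) : 0 < dd j := by
  have := (XX_real j).1
  unfold dd; positivity

lemma dd_le (j : ℕ) : 1000 * dd j ≤ (1 / 2) ^ (j + 1) := by
  obtain ⟨h1, h2, h3⟩ := XX_real j
  unfold dd
  set X : ℝ := (XX j : ℝ) with hX
  rw [one_div_pow, mul_one_div, div_le_div_iff₀ (by positivity) (by positivity), pow_succ]
  set Y : ℝ := 2 ^ j with hY
  have e1 : Y ≤ Y ^ 16 := le_self_pow₀ h2 (by norm_num)
  have e2 : X ≤ X ^ 4 := le_self_pow₀ (by linarith) (by norm_num)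
  linarith

lemma half_pow_le (j : ℕ) (hj : 1 ≤ j) : (1 / 2 : ℝ) ^ (j + 1) ≤ 1 / 4 := by
  calc (1 / 2 : ℝ) ^ (j + 1) ≤ (1 / 2) ^ 2 :=
        pow_le_pow_of_le_one (by norm_num) (by norm_num) (by omega)
    _ = 1 / 4 := by norm_num

lemma borel {α : Type} [MeasurableSpace α] (ν : Measure α) [IsProbabilityMeasure ν]
    (s : ℕ → Set α) (C : ℝ) (hC : 1 ≤ C) (h : ∀ j, 1 ≤ j → ν.real (s j) ≤ C * (1 / 2) ^ j) :
    ∀ᵐ ω ∂ν, ∀ᶠ j in atTop, ω ∉ s j := by
  refine ae_eventually_notMem (ne_top_of_le_ne_top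
    ((summable_geometric_two.mul_left C).tsum_ofReal_ne_top) (ENNReal.tsum_le_tsum fun j => ?_))
  rw [← ofReal_measureReal (measure_ne_top _ _)]
  refine ENNReal.ofReal_le_ofReal ?_
  rcases Nat.eq_zero_or_pos j with rfl | hj
  · simpa using measureReal_le_one.trans hC
  · exact h j hj

variable {μ : Measure ℕ} (hμ : Good μ)
include hμ

lemma Good.xx_left (j : ℕ) : (mean μ)⁻¹ ≤ xx μ j - 2 * dd j ∧
    xx μ j + 2 * dd j ≤ (mean μ)⁻¹ + (1 / 2) ^ j := by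
  have m2 : mean μ ≤ 3 := hμ.mean_le
  have m1 : 5 / 2 ≤ mean μ := hμ.mean_ge
  have d0 := dd_pos j
  have d1 := dd_le j
  have M1 : (1 / 2 : ℝ) ^ (j + 1) ≤ 1 / 2 := by
    rw [pow_succ]; have : (1 / 2 : ℝ) ^ j ≤ 1 := pow_le_one₀ (by norm_num) (by norm_num)
    linarith
  have e0 : (1 / 2 : ℝ) ^ j = 2 * (1 / 2) ^ (j + 1) := by ring
  rw [e0]
  unfold xx
  set M : ℝ := (1 / 2) ^ (j + 1)
  set d := dd j
  set m := mean μ
  have hD : 0 < m - M + d := by linarith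
  have e : (m - M + d)⁻¹ = m⁻¹ + (M - d) / (m * (m - M + d)) := by
    have : m ≠ 0 := by linarith
    field_simp; ring
  rw [e]
  have e1 : 2 * d ≤ (M - d) / (m * (m - M + d)) := by
    rw [le_div_iff₀ (by positivity)]
    have : m * (m - M + d) ≤ 9 := by nlinarith
    nlinarith
  have e2 : (M - d) / (m * (m - M + d)) ≤ M := by
    rw [div_le_iff₀ (by positivity)]
    have : 1 ≤ m * (m - M + d) := by nlinarith
    nlinarith
  constructor <;> linarith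

lemma Good.xx_tendsto : Tendsto (fun j => xx μ j + 2 * dd j) atTop (𝓝 (mean μ)⁻¹) := by
  have h := (tendsto_pow_atTop_nhds_zero_of_lt_one (r := (1 / 2 : ℝ)) (by norm_num)
    (by norm_num)).const_add (mean μ)⁻¹
  rw [add_zero] at h
  refine tendsto_of_tendsto_of_tendsto_of_le_of_le tendsto_const_nhds h
    (fun j => ?_) fun j => (hμ.xx_left j).2
  have := (hμ.xx_left j).1
  have := dd_pos j
  simp only
  linarith

lemma Good.xx_range (j : ℕ) (hj : 1 ≤ j) : 1 / 3 ≤ xx μ j ∧ xx μ j + 2 * dd j ≤ 1 / 2 := by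
  have m1 : 5 / 2 ≤ mean μ := hμ.mean_ge
  have d0 := dd_pos j
  have d1 := dd_le j
  have M1 := half_pow_le j hj
  have h1 := (hμ.xx_left j).1
  have h2 := hμ.mean_inv.1
  refine ⟨by linarith, ?_⟩
  have : xx μ j ≤ 4 / 9 := by
    unfold xx
    rw [inv_le_comm₀ (by linarith) (by norm_num)]; linarith
  linarith

lemma Good.lvl_upper (j : ℕ) (hj : 1 ≤ j) : annealed μ (xx μ j) ≤ 3 / (XX j : ℝ) ^ 12 := by
  have := hμ.prob
  obtain ⟨r1, r2⟩ := hμ.xx_range j hj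
  have d0 := dd_pos j
  have hp : xx μ j ∈ Ioc (0 : ℝ) 1 := ⟨by linarith, by linarith⟩
  obtain ⟨hs, hH⟩ := hμ.fix hp
  have hG := annealed_mem μ (p := xx μ j) ⟨hp.1.le, hp.2⟩
  have h1 := hμ.HH_ge_tail j hs
  have e : (xx μ j)⁻¹ = mean μ - (1 / 2) ^ (j + 1) + dd j := by unfold xx; rw [inv_inv]
  rw [hH, e] at h1
  set s := xx μ j * annealed μ (xx μ j) with hsdef
  have h2 : s * dd j ≤ 1 / (XX j : ℝ) ^ 16 := by linarith
  have hX := (XX_real j).1
  have h3 : s ≤ 1 / (XX j : ℝ) ^ 12 := by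
    have : 1 / (XX j : ℝ) ^ 16 = 1 / (XX j : ℝ) ^ 12 * dd j := by unfold dd; field_simp
    rw [this] at h2
    exact le_of_mul_le_mul_right h2 d0
  have h4 : annealed μ (xx μ j) ≤ 3 * s := by rw [hsdef]; nlinarith [hG.1]
  rw [div_eq_mul_one_div]
  linarith

lemma Good.lvl_lower (j : ℕ) (hj : 1 ≤ j) :
    1 / (3 * (XX j : ℝ) ^ 5) ≤ annealed μ (xx μ j + 2 * dd j) := by
  have := hμ.prob
  obtain ⟨r1, r2⟩ := hμ.xx_range j hj
  have m1 : 5 / 2 ≤ mean μ := hμ.mean_ge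
  have d0 := dd_pos j
  have d1 := dd_le j
  have M1 := half_pow_le j hj
  have hX := (XX_real j).1
  set σ : ℝ := 1 / (3 * (XX j : ℝ) ^ 5) with hσ
  set p := xx μ j + 2 * dd j with hp
  have hp0 : 0 < p := by linarith
  have hσ0 : 0 < σ := by positivity
  have hσ1 : σ ≤ 1 / 3 := by
    rw [hσ]
    refine one_div_le_one_div_of_le (by norm_num) ?_
    have : (1 : ℝ) ≤ (XX j : ℝ) ^ 5 := one_le_pow₀ (by linarith)
    linarith
  have hσd : 3 * ((XX j : ℝ) * σ ^ 2) = dd j * σ := by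
    rw [hσ]; unfold dd; field_simp
  have h1 := hμ.HH_le j (s := σ) ⟨hσ0.le, by linarith⟩
  rw [hμ.HH_eq ⟨hσ0.le, by linarith⟩, hσd] at h1
  have e : xx μ j * (mean μ - (1 / 2) ^ (j + 1) + dd j) = 1 := by
    unfold xx; exact inv_mul_cancel₀ (by linarith)
  have h2 : σ / p ≤ annealed μ p := by
    refine le_annealed μ ⟨hp0.le, by linarith⟩ ⟨by positivity, ?_⟩ ?_
    · rw [div_le_one hp0]; linarith
    · rw [mul_div_cancel₀ _ hp0.ne']
      have h3 : 1 / p ≤ mean μ - (1 / 2) ^ (j + 1) - dd j := by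
        rw [div_le_iff₀ hp0, hp]
        nlinarith
      have h4 : σ / p = σ * (1 / p) := by ring
      rw [h4]
      nlinarith
  refine le_trans ?_ h2
  rw [le_div_iff₀ hp0]
  nlinarith

lemma Good.lvl_second (j : ℕ) (hj : 1 ≤ j) :
    second μ (xx μ j + 2 * dd j) ≤ 4 * (XX j : ℝ) * annealed μ (xx μ j + 2 * dd j) ^ 2 := by
  have := hμ.prob
  obtain ⟨r1, r2⟩ := hμ.xx_range j hj
  have d0 := dd_pos j
  have hX := (XX_real j).1
  have hlow := hμ.lvl_lower j hj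
  set p := xx μ j + 2 * dd j with hp
  have hp' : p ∈ Icc (0 : ℝ) 1 := ⟨by linarith, by linarith⟩
  have hG := annealed_mem μ hp'
  have h1 := second_fix μ hp'
  have h2 := annealed_fix μ hp'
  have h3 := second_le μ hp'
  have h4 := second_nonneg μ p
  set G := annealed μ p
  set S := second μ p
  have hp0 : 0 ≤ p := hp'.1
  have hs0 : 0 ≤ p * G := mul_nonneg hp0 hG.1
  have hs1 : p * G ≤ G / 2 := by nlinarith [hG.1]
  have hp2 : p ^ 2 ≤ 1 / 4 := by nlinarith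
  have hy : p ^ 2 * S ≤ p * G := by
    have : p * S ≤ G := by nlinarith
    nlinarith
  have h5 := hμ.FF_lip (a := 2 * (p * G) - p ^ 2 * S) (b := 2 * (p * G)) (by linarith)
    (by nlinarith) (by linarith [hG.2])
  have h6 := hμ.VV_le j hs0 (by linarith [hG.2])
  have h7 : (p * G) ^ 2 ≤ G ^ 2 / 4 := by nlinarith
  have h8 : p ^ 2 * S ≤ S / 4 := by nlinarith
  have h9 : (XX j : ℝ) * (p * G) ^ 2 ≤ XX j * (G ^ 2 / 4) := by gcongr
  have h10 : 4 * (1 / (XX j : ℝ) ^ 16) ≤ XX j * G ^ 2 := by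
    have e1 : (1 / (3 * (XX j : ℝ) ^ 5)) ^ 2 ≤ G ^ 2 := pow_le_pow_left₀ (by positivity) hlow 2
    refine le_trans ?_ (mul_le_mul_of_nonneg_left e1 (by linarith))
    set X : ℝ := (XX j : ℝ)
    have e2 : X * (1 / (3 * X ^ 5)) ^ 2 = X ^ 7 / 9 * (1 / X ^ 16) := by field_simp; ring
    rw [e2]
    have e3 : X ≤ X ^ 7 := le_self_pow₀ (by linarith) (by norm_num)
    gcongr; linarith
  linarith

lemma Good.fail_low (j : ℕ) (hj : 1 ≤ j) :
    (gw μ).real {N | quenched N (xx μ j + 2 * dd j) < 1 / (24576 * (XX j : ℝ) ^ 7 * (2 ^ j) ^ 2)}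
      ≤ 1 * (1 / 2) ^ j := by
  have := hμ.prob
  obtain ⟨r1, r2⟩ := hμ.xx_range j hj
  have d0 := dd_pos j
  obtain ⟨hX, hY, _⟩ := XX_real j
  have hlow := hμ.lvl_lower j hj
  have hsec := hμ.lvl_second j hj
  set p := xx μ j + 2 * dd j with hp
  have hp' : p ∈ Ioc (0 : ℝ) 1 := ⟨by linarith, by linarith⟩
  have hG0 : 0 < annealed μ p := lt_of_lt_of_le (by positivity) hlow
  have h1 := paley μ ⟨hp'.1.le, hp'.2⟩ hG0 (by positivity) hsec
  have hn : (2 : ℕ) ^ (6 + 16 ^ (j + 1) + j) = 64 * XX j * 2 ^ j := by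
    unfold XX; rw [pow_add, pow_add, show (2 : ℕ) ^ 6 = 64 by norm_num]
  have h2 := amplify μ (θ := annealed μ p / 2) hp' hμ.two (6 + 16 ^ (j + 1) + j)
  generalize 6 + 16 ^ (j + 1) + j = n at hn h2
  have hn' : (2 : ℝ) ^ n = 64 * XX j * 2 ^ j := by exact_mod_cast hn
  have h3 : 1 / (24576 * (XX j : ℝ) ^ 7 * (2 ^ j) ^ 2) ≤ p ^ n * (annealed μ p / 2) := by
    have e1 : (1 / 4 : ℝ) ^ n ≤ p ^ n := pow_le_pow_left₀ (by norm_num) (by linarith) n
    have e2 : (1 / 4 : ℝ) ^ n = 1 / (64 * XX j * 2 ^ j) ^ 2 := by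
      rw [← hn', ← pow_mul, mul_comm n 2, pow_mul, one_div_pow]; norm_num
    calc 1 / (24576 * (XX j : ℝ) ^ 7 * (2 ^ j) ^ 2)
        = 1 / (64 * XX j * 2 ^ j) ^ 2 * (1 / (3 * (XX j : ℝ) ^ 5) / 2) := by field_simp; ring
      _ ≤ p ^ n * (annealed μ p / 2) := by rw [← e2]; gcongr
  refine (measureReal_mono (fun N hN => lt_of_lt_of_le hN h3)).trans (h2.trans ?_)
  refine (pow_le_pow_left₀ measureReal_nonneg h1 _).trans ?_
  have h4 := one_sub_pow_mul_le (2 ^ n) (s := 1 / (16 * (4 * (XX j : ℝ)))) (by positivity)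
    (by rw [div_le_one (by positivity)]; linarith)
  have e3 : ((2 ^ n : ℕ) : ℝ) * (1 / (16 * (4 * (XX j : ℝ)))) = 2 ^ j := by
    push_cast; rw [hn']; field_simp; ring
  rw [e3] at h4
  have h5 : 0 ≤ (1 - 1 / (16 * (4 * (XX j : ℝ)))) ^ 2 ^ n :=
    pow_nonneg (by rw [sub_nonneg, div_le_one (by positivity)]; linarith) _
  rw [one_mul, one_div_pow, le_div_iff₀ (by positivity)]
  nlinarith

lemma Good.markov {p t : ℝ} (hp : p ∈ Icc (0 : ℝ) 1) (ht : 0 < t) :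
    (gw μ).real {N | t ≤ quenched N p} ≤ annealed μ p / t := by
  have := hμ.prob
  rw [le_div_iff₀ ht, mul_comm]
  exact mul_meas_ge_le_integral_of_nonneg (ae_of_all _ fun N => (quenched_mem N p).1)
    (integrable_quenched μ hp) t

lemma Good.fail_up (j : ℕ) (hj : 1 ≤ j) :
    (gw μ).real {N | 3 * 2 ^ j / (XX j : ℝ) ^ 12 ≤ quenched N (xx μ j)} ≤ 1 * (1 / 2) ^ j := by
  obtain ⟨r1, r2⟩ := hμ.xx_range j hj
  have d0 := dd_pos j
  have hX := (XX_real j).1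
  refine (hμ.markov ⟨by linarith, by linarith⟩ (by positivity)).trans ?_
  rw [div_le_iff₀ (by positivity)]
  refine (hμ.lvl_upper j hj).trans (le_of_eq ?_)
  rw [one_div_pow]; field_simp

lemma Good.dyadic (k : ℕ) (hk : 1 ≤ k) :
    annealed μ ((mean μ)⁻¹ + (1 / 4) ^ k) ≤ 2 ^ 18 * (1 / 2) ^ k * (1 / 32) ^ k := by
  have e4 : (1 / 4 : ℝ) ^ k ≤ (1 / 4) ^ 1 := pow_le_pow_of_le_one (by norm_num) (by norm_num) hk
  refine (hμ.cubic (by positivity) (by linarith [hμ.mean_inv.2.1])).trans (le_of_eq ?_)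
  rw [← pow_mul, mul_comm k 3, pow_mul, mul_assoc, ← mul_pow]; norm_num

lemma Good.fail_dyadic (k : ℕ) (hk : 1 ≤ k) :
    (gw μ).real {N | (1 / 32) ^ k ≤ quenched N ((mean μ)⁻¹ + (1 / 4) ^ k)} ≤
      2 ^ 18 * (1 / 2) ^ k := by
  have e4 : (1 / 4 : ℝ) ^ k ≤ (1 / 4) ^ 1 := pow_le_pow_of_le_one (by norm_num) (by norm_num) hk
  have e5 : (0 : ℝ) ≤ (1 / 4) ^ k := by positivity
  refine (hμ.markov ⟨by linarith [hμ.mean_inv.1], by linarith [hμ.mean_inv.2.1]⟩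
    (by positivity)).trans ?_
  rw [div_le_iff₀ (by positivity)]
  exact hμ.dyadic k hk

omit hμ in
lemma gap (j : ℕ) (hj : 1 ≤ j) : 2 ^ j * (2 * dd j) ^ 2 ≤
    1 / (24576 * (XX j : ℝ) ^ 7 * (2 ^ j) ^ 2) - 2 * (3 * 2 ^ j / (XX j : ℝ) ^ 12) := by
  obtain ⟨hX, _, hXY⟩ := XX_real j
  have hY : (2 : ℝ) ≤ 2 ^ j := le_self_pow₀ (by norm_num) (by omega)
  unfold dd
  set X : ℝ := (XX j : ℝ)
  set Y : ℝ := 2 ^ j
  have e1 : 2 * (3 * Y / X ^ 12) ≤ Y / X ^ 8 := by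
    rw [← mul_div_assoc, div_le_div_iff₀ (by positivity) (by positivity)]
    have : X ≤ X ^ 4 := le_self_pow₀ (by linarith) (by norm_num)
    have e : Y * X ^ 12 = Y * X ^ 8 * X ^ 4 := by ring
    rw [e]
    have : 0 < Y * X ^ 8 := by positivity
    nlinarith
  have e2 : 5 * (Y / X ^ 8) ≤ 1 / (24576 * X ^ 7 * Y ^ 2) := by
    rw [← mul_div_assoc, div_le_div_iff₀ (by positivity) (by positivity)]
    have h1 : (2 : ℝ) ^ 13 ≤ Y ^ 13 := pow_le_pow_left₀ (by norm_num) hY 13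
    have h2 : 2 * Y ^ 3 ≤ Y ^ 16 := by
      have : Y ^ 16 = Y ^ 13 * Y ^ 3 := by ring
      rw [this]; gcongr; linarith
    have h3 : 122880 * Y ^ 3 ≤ X := by
      have : 0 ≤ Y ^ 3 := by positivity
      linarith
    calc 5 * Y * (24576 * X ^ 7 * Y ^ 2) = X ^ 7 * (122880 * Y ^ 3) := by ring
      _ ≤ X ^ 7 * X := by gcongr
      _ = 1 * X ^ 8 := by ring
  have e3 : Y * (2 * (1 / X ^ 4)) ^ 2 = 4 * (Y / X ^ 8) := by field_simp; ring
  linarith

theorem Good.quenched_main : ∀ᵐ N ∂(gw μ),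
    HasExpansion (quenched N) (mean μ)⁻¹ 2 ∧ ¬ SmoothRight (quenched N) (mean μ)⁻¹ 2 := by
  have := hμ.prob
  obtain ⟨a1, a2, _⟩ := hμ.mean_inv
  filter_upwards [borel _ _ _ le_rfl hμ.fail_low, borel _ _ _ le_rfl hμ.fail_up,
    borel _ _ _ (by norm_num) hμ.fail_dyadic] with N h1 h2 h3
  constructor
  · refine expansion_of_dyadic (by linarith) (fun x y hx hxy hy => quenched_mono N
      ⟨by linarith, by linarith⟩ ⟨by linarith, hy⟩ hxy) (fun x => (quenched_mem N x).1) ?_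
    filter_upwards [h3] with k hk
    exact (not_le.mp hk).le
  · refine not_smooth (x := xx μ) (δ := fun j => 2 * dd j) (fun j => by linarith [dd_pos j])
      (fun j => (hμ.xx_left j).1) hμ.xx_tendsto ?_
    filter_upwards [h1, h2, eventually_ge_atTop 1] with j e1 e2 hj
    simp only [not_lt, not_le] at e1 e2
    have := gap j hj
    have := (quenched_mem N (xx μ j - 2 * dd j)).1
    linarith

theorem Good.annealed_main :
    HasExpansion (annealed μ) (mean μ)⁻¹ 2 ∧ ¬ SmoothRight (annealed μ) (mean μ)⁻¹ 2 := by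
  have := hμ.prob
  obtain ⟨a1, a2, _⟩ := hμ.mean_inv
  have hnn : ∀ x, 0 ≤ annealed μ x := fun x => integral_nonneg fun N => (quenched_mem N x).1
  constructor
  · refine expansion_of_dyadic (by linarith) (fun x y hx hxy hy => annealed_mono μ
      ⟨by linarith, by linarith⟩ ⟨by linarith, hy⟩ hxy) hnn ?_
    filter_upwards [eventually_ge_atTop 18] with k hk
    refine (hμ.dyadic k (by omega)).trans (mul_le_of_le_one_left (by positivity) ?_)
    have : (1 / 2 : ℝ) ^ k ≤ (1 / 2) ^ 18 := pow_le_pow_of_le_one (by norm_num) (by norm_num) hk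
    linarith
  · refine not_smooth (x := xx μ) (δ := fun j => 2 * dd j) (fun j => by linarith [dd_pos j])
      (fun j => (hμ.xx_left j).1) hμ.xx_tendsto ?_
    filter_upwards [eventually_ge_atTop 1] with j hj
    have h1 := gap j hj
    have h2 := hnn (xx μ j - 2 * dd j)
    have h3 := hμ.lvl_upper j hj
    have h4 := hμ.lvl_lower j hj
    obtain ⟨hX, hY, _⟩ := XX_real j
    have h5 : 1 / (24576 * (XX j : ℝ) ^ 7 * (2 ^ j) ^ 2) ≤ 1 / (3 * (XX j : ℝ) ^ 5) := by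
      refine one_div_le_one_div_of_le (by positivity) ?_
      have e1 : (XX j : ℝ) ^ 5 ≤ (XX j : ℝ) ^ 7 := pow_le_pow_right₀ (by linarith) (by norm_num)
      have e2 : (1 : ℝ) ≤ (2 ^ j) ^ 2 := one_le_pow₀ hY
      have e3 : (0 : ℝ) ≤ (XX j : ℝ) ^ 5 := by positivity
      nlinarith
    have h6 : 3 / (XX j : ℝ) ^ 12 ≤ 3 * 2 ^ j / (XX j : ℝ) ^ 12 := by gcongr; linarith
    linarith

end Pool.Agent.MP_97806e_pr.H84
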