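import Pool.Agent.MP_97806e_pr.H84.Tree

namespace Pool.Agent.MP_97806e_pr.H84

open MeasureTheory ProbabilityTheory Filter Topology Set

lemma Q_mem {p : ℝ} (hp : p ∈ Icc (0 : ℝ) 1) (n : ℕ) (N : List ℕ → ℕ) : Q p n N ∈ Icc (0 : ℝ) 1 := by
  rw [← (real_reach ⟨p, hp⟩ n N).1]
  exact ⟨measureReal_nonneg, measureReal_le_one⟩

lemma one_sub_mul_mem {p x : ℝ} (hp : p ∈ Icc (0 : ℝ) 1) (hx : x ∈ Icc (0 : ℝ) 1) :
    1 - p * x ∈ Icc (0 : ℝ) 1 :=
  ⟨by nlinarith [hp.1, hp.2, hx.1, hx.2, mul_le_one₀ hp.2 hx.1 hx.2],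
    by nlinarith [mul_nonneg hp.1 hx.1]⟩

lemma Q_mono {p q : ℝ} (hp : p ∈ Icc (0 : ℝ) 1) (hq : q ∈ Icc (0 : ℝ) 1) (hpq : p ≤ q) (n : ℕ) :
    ∀ N : List ℕ → ℕ, Q p n N ≤ Q q n N := by
  induction n with
  | zero => intro N; simp [Q]
  | succ n ih =>
    intro N
    simp only [Q]
    refine sub_le_sub_left (Finset.prod_le_prod (fun i _ => (one_sub_mul_mem hq (Q_mem hq n _)).1)
      fun i _ => sub_le_sub_left ?_ _) _
    exact mul_le_mul hpq (ih _) (Q_mem hp n _).1 hq.1

lemma measurable_prod_sub {F : (List ℕ → ℕ) → ℝ} (hF : Measurable F) :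
    Measurable (fun N : List ℕ → ℕ => ∏ i ∈ Finset.range (N []), F (sub N i)) := by
  have h : Measurable (fun z : (List ℕ → ℕ) × ℕ => ∏ i ∈ Finset.range z.2, F (sub z.1 i)) := by
    refine measurable_from_prod_countable_left fun n => ?_
    exact Finset.measurable_prod (Finset.range n) (f := fun i (x : List ℕ → ℕ) => F (sub x i))
      fun i _ => hF.comp (measurable_sub i)
  exact h.comp (measurable_id.prodMk (measurable_pi_apply []))

lemma measurable_Q (p : ℝ) (n : ℕ) : Measurable (Q p n) := by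
  induction n with
  | zero => exact measurable_const
  | succ n ih =>
    exact measurable_const.sub
      (measurable_prod_sub (F := fun N => 1 - p * Q p n N) (measurable_const.sub (ih.const_mul p)))

lemma quenched_mem (N : List ℕ → ℕ) (p : ℝ) : quenched N p ∈ Icc (0 : ℝ) 1 :=
  ⟨measureReal_nonneg, measureReal_le_one⟩

lemma quenched_mono (N : List ℕ → ℕ) {p q : ℝ} (hp : p ∈ Icc (0 : ℝ) 1) (hq : q ∈ Icc (0 : ℝ) 1)
    (hpq : p ≤ q) : quenched N p ≤ quenched N q :=
  le_of_tendsto_of_tendsto' (tendsto_Q N hp) (tendsto_Q N hq) fun n => Q_mono hp hq hpq n N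

lemma measurable_quenched {p : ℝ} (hp : p ∈ Icc (0 : ℝ) 1) : Measurable (fun N => quenched N p) :=
  measurable_of_tendsto_metrizable (measurable_Q p) (tendsto_pi_nhds.mpr fun N => tendsto_Q N hp)

lemma quenched_rec (N : List ℕ → ℕ) {p : ℝ} (hp : p ∈ Icc (0 : ℝ) 1) :
    quenched N p = 1 - ∏ i ∈ Finset.range (N []), (1 - p * quenched (sub N i) p) := by
  refine tendsto_nhds_unique ((tendsto_Q N hp).comp (tendsto_add_atTop_nat 1)) ?_
  refine tendsto_const_nhds.sub (tendsto_finsetProd _ fun i _ => ?_)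
  exact tendsto_const_nhds.sub ((tendsto_Q (sub N i) hp).const_mul p)

lemma mul_quenched_sub_le (N : List ℕ → ℕ) {p : ℝ} (hp : p ∈ Icc (0 : ℝ) 1) {i : ℕ}
    (hi : i < N []) : p * quenched (sub N i) p ≤ quenched N p := by
  rw [quenched_rec N hp]
  have h1 := Finset.mul_prod_erase (Finset.range (N [])) (fun i => 1 - p * quenched (sub N i) p)
    (Finset.mem_range.mpr hi)
  have h2 : ∏ j ∈ (Finset.range (N [])).erase i, (1 - p * quenched (sub N j) p) ≤ 1 :=
    Finset.prod_le_one (fun j _ => (one_sub_mul_mem hp (quenched_mem _ _)).1)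
      fun j _ => (one_sub_mul_mem hp (quenched_mem _ _)).2
  have h3 := (one_sub_mul_mem hp (quenched_mem (sub N i) p)).1
  rw [← h1]
  nlinarith

variable (μ : Measure ℕ) [IsProbabilityMeasure μ]

instance : IsProbabilityMeasure (gw μ) := by unfold gw; infer_instance

lemma integrable_of_mem {α : Type} [MeasurableSpace α] (ν : Measure α) [IsProbabilityMeasure ν]
    {F : α → ℝ} (hF : Measurable F) (h : ∀ x, F x ∈ Icc (0 : ℝ) 1) : Integrable F ν :=
  (integrable_const (1 : ℝ)).mono' hF.aestronglyMeasurable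
    (ae_of_all _ fun x => by rw [Real.norm_eq_abs, abs_of_nonneg (h x).1]; exact (h x).2)

/-- the generating function identity -/
lemma integral_prod_sub {F : (List ℕ → ℕ) → ℝ} (hF : Measurable F) (h : ∀ N, F N ∈ Icc (0 : ℝ) 1) :
    ∫ N, ∏ i ∈ Finset.range (N []), F (sub N i) ∂(gw μ) = ∫ n, (∫ N, F N ∂(gw μ)) ^ n ∂μ := by
  let Φ : ℕ × (ℕ → List ℕ → ℕ) → ℝ := fun z => ∏ i ∈ Finset.range z.1, F (z.2 i)
  have hΦ : Measurable Φ := by
    refine measurable_from_prod_countable_right fun n => ?_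
    exact Finset.measurable_prod (Finset.range n) (f := fun i (x : ℕ → List ℕ → ℕ) => F (x i))
      fun i _ => hF.comp (measurable_pi_apply i)
  have hΦm : ∀ z, Φ z ∈ Icc (0 : ℝ) 1 := fun z =>
    ⟨Finset.prod_nonneg fun i _ => (h _).1, Finset.prod_le_one (fun i _ => (h _).1) fun i _ => (h _).2⟩
  have e1 : ∫ N, ∏ i ∈ Finset.range (N []), F (sub N i) ∂(gw μ) =
      ∫ z, Φ z ∂(μ.prod (Measure.infinitePi fun _ : ℕ => PW μ)) := by
    rw [← map_split, integral_map measurable_split.aemeasurable hΦ.aestronglyMeasurable]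
    rfl
  rw [e1, integral_prod _ (integrable_of_mem _ hΦ hΦm)]
  congr with n
  simp only [Φ]
  have hind : iIndepFun (fun (i : Fin n) (f : ℕ → List ℕ → ℕ) => F (f i))
      (Measure.infinitePi fun _ : ℕ => PW μ) :=
    (iIndepFun_infinitePi (P := fun _ : ℕ => PW μ) (X := fun _ => F) (fun _ => hF)).precomp
      (g := fun i : Fin n => (i : ℕ)) Fin.val_injective
  have e2 := hind.integral_fun_prod_eq_prod_integral
    (fun i => (hF.comp (measurable_pi_apply _)).aestronglyMeasurable)
  have e3 : ∀ i : ℕ, ∫ f : ℕ → List ℕ → ℕ, F (f i) ∂(Measure.infinitePi fun _ : ℕ => PW μ) =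
      ∫ N, F N ∂(gw μ) := by
    intro i
    rw [← integral_map (measurable_pi_apply i).aemeasurable hF.aestronglyMeasurable,
      Measure.infinitePi_map_eval]
    rfl
  simp only [Finset.prod_range]
  rw [e2]
  simp [e3]

/-- `F x = E[1 - (1-x)^N]` -/
noncomputable def FF (x : ℝ) : ℝ := 1 - ∫ n, (1 - x) ^ n ∂μ

lemma integrable_pow {x : ℝ} (hx : x ∈ Icc (0 : ℝ) 1) : Integrable (fun n : ℕ => x ^ n) μ :=
  integrable_of_mem μ .of_discrete fun _ => ⟨pow_nonneg hx.1 _, pow_le_one₀ hx.1 hx.2⟩

lemma FF_mono {x y : ℝ} (hx : 0 ≤ x) (hxy : x ≤ y) (hy : y ≤ 1) : FF μ x ≤ FF μ y := by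
  unfold FF
  refine sub_le_sub_left (integral_mono (integrable_pow μ ⟨by linarith, by linarith⟩)
    (integrable_pow μ ⟨by linarith, by linarith⟩) fun n => ?_) _
  exact pow_le_pow_left₀ (by linarith) (by linarith) n

lemma integrable_quenched {p : ℝ} (hp : p ∈ Icc (0 : ℝ) 1) :
    Integrable (fun N => quenched N p) (gw μ) :=
  integrable_of_mem _ (measurable_quenched hp) fun N => quenched_mem N p

lemma annealed_mem {p : ℝ} (hp : p ∈ Icc (0 : ℝ) 1) : annealed μ p ∈ Icc (0 : ℝ) 1 := by
  refine ⟨integral_nonneg fun N => (quenched_mem N p).1, ?_⟩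
  have := integral_mono (integrable_quenched μ hp) (integrable_const (1 : ℝ))
    fun N => (quenched_mem N p).2
  simpa [annealed] using this

lemma annealed_mono {p q : ℝ} (hp : p ∈ Icc (0 : ℝ) 1) (hq : q ∈ Icc (0 : ℝ) 1)
    (hpq : p ≤ q) : annealed μ p ≤ annealed μ q :=
  integral_mono (integrable_quenched μ hp) (integrable_quenched μ hq)
    fun N => quenched_mono N hp hq hpq

lemma integral_step {p : ℝ} (hp : p ∈ Icc (0 : ℝ) 1) {F : (List ℕ → ℕ) → ℝ} (hF : Measurable F)
    (h : ∀ N, F N ∈ Icc (0 : ℝ) 1) :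
    ∫ N, (1 - ∏ i ∈ Finset.range (N []), (1 - p * F (sub N i))) ∂(gw μ) =
      FF μ (p * ∫ N, F N ∂(gw μ)) := by
  have hm : Measurable (fun N => 1 - p * F N) := measurable_const.sub (hF.const_mul p)
  have hmem : ∀ N, 1 - p * F N ∈ Icc (0 : ℝ) 1 := fun N => one_sub_mul_mem hp (h N)
  rw [integral_sub (integrable_const _) (integrable_of_mem _ (measurable_prod_sub hm) fun N =>
    ⟨Finset.prod_nonneg fun i _ => (hmem _).1,
      Finset.prod_le_one (fun i _ => (hmem _).1) fun i _ => (hmem _).2⟩),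
    integral_prod_sub μ hm hmem, integral_sub (integrable_const _)
      ((integrable_of_mem _ hF h).const_mul p), integral_const_mul]
  simp [FF]

lemma annealed_fix {p : ℝ} (hp : p ∈ Icc (0 : ℝ) 1) :
    annealed μ p = FF μ (p * annealed μ p) := by
  unfold annealed
  rw [← integral_step μ hp (measurable_quenched hp) fun N => quenched_mem N p]
  congr with N
  exact quenched_rec N hp

lemma le_annealed {p x : ℝ} (hp : p ∈ Icc (0 : ℝ) 1) (hx : x ∈ Icc (0 : ℝ) 1)
    (h : x ≤ FF μ (p * x)) : x ≤ annealed μ p := by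
  have h1 : ∀ n, x ≤ ∫ N, Q p n N ∂(gw μ) := by
    intro n
    induction n with
    | zero => simpa [Q] using hx.2
    | succ n ih =>
      simp only [Q]
      rw [integral_step μ hp (measurable_Q p n) (Q_mem hp n)]
      refine h.trans (FF_mono μ (mul_nonneg hp.1 hx.1) (mul_le_mul_of_nonneg_left ih hp.1) ?_)
      have := integral_mono (integrable_of_mem (gw μ) (measurable_Q p n) (Q_mem hp n))
        (integrable_const (1 : ℝ)) fun N => (Q_mem hp n N).2
      simp only [integral_const, probReal_univ, smul_eq_mul, mul_one] at this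
      exact mul_le_one₀ hp.2 (hx.1.trans ih) this
  refine ge_of_tendsto' (tendsto_integral_of_dominated_convergence (fun _ => (1 : ℝ))
    (fun n => (measurable_Q p n).aestronglyMeasurable) (integrable_const _)
    (fun n => ae_of_all _ fun N => ?_) (ae_of_all _ fun N => tendsto_Q N hp)) h1
  rw [Real.norm_eq_abs, abs_of_nonneg (Q_mem hp n N).1]; exact (Q_mem hp n N).2

/-- second moment of the quenched survival function -/
noncomputable def second (p : ℝ) : ℝ := ∫ N, quenched N p ^ 2 ∂(gw μ)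

lemma sq_mem {x : ℝ} (hx : x ∈ Icc (0 : ℝ) 1) : x ^ 2 ∈ Icc (0 : ℝ) 1 :=
  ⟨sq_nonneg _, pow_le_one₀ hx.1 hx.2⟩

lemma integrable_quenched_sq {p : ℝ} (hp : p ∈ Icc (0 : ℝ) 1) :
    Integrable (fun N => quenched N p ^ 2) (gw μ) :=
  integrable_of_mem _ ((measurable_quenched hp).pow_const 2) fun N => sq_mem (quenched_mem N p)

omit [IsProbabilityMeasure μ] in
lemma second_nonneg (p : ℝ) : 0 ≤ second μ p := integral_nonneg fun _ => sq_nonneg _

lemma second_le {p : ℝ} (hp : p ∈ Icc (0 : ℝ) 1) : second μ p ≤ annealed μ p :=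
  integral_mono (integrable_quenched_sq μ hp) (integrable_quenched μ hp) fun N => by
    have := quenched_mem N p
    simp only
    nlinarith [this.1, this.2]

lemma integral_one_sub_sq {p : ℝ} (hp : p ∈ Icc (0 : ℝ) 1) (c : ℝ) :
    ∫ N, (1 - c * quenched N p) ^ 2 ∂(gw μ) =
      1 - (2 * (c * annealed μ p) - c ^ 2 * second μ p) := by
  have e : ∀ N, (1 - c * quenched N p) ^ 2 =
      1 - ((2 * c) * quenched N p - c ^ 2 * quenched N p ^ 2) := fun N => by ring
  simp only [e]
  have hi : Integrable (fun N => (2 * c) * quenched N p - c ^ 2 * quenched N p ^ 2) (gw μ) :=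
    ((integrable_quenched μ hp).const_mul _).sub ((integrable_quenched_sq μ hp).const_mul _)
  rw [integral_sub (integrable_const _) hi, integral_sub
    ((integrable_quenched μ hp).const_mul _) ((integrable_quenched_sq μ hp).const_mul _),
    integral_const_mul, integral_const_mul]
  simp only [integral_const, probReal_univ, smul_eq_mul, mul_one, annealed, second]
  ring

lemma second_fix {p : ℝ} (hp : p ∈ Icc (0 : ℝ) 1) :
    2 * annealed μ p - second μ p = FF μ (2 * (p * annealed μ p) - p ^ 2 * second μ p) := by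
  have h1 := integral_one_sub_sq μ hp 1
  have h2 := integral_prod_sub μ (F := fun N => (1 - p * quenched N p) ^ 2)
    ((measurable_const.sub ((measurable_quenched hp).const_mul p)).pow_const 2)
    fun N => sq_mem (one_sub_mul_mem hp (quenched_mem N p))
  rw [integral_one_sub_sq μ hp p] at h2
  unfold FF
  rw [← h2]
  have e : ∀ N : List ℕ → ℕ, ∏ i ∈ Finset.range (N []), (1 - p * quenched (sub N i) p) ^ 2 =
      (1 - 1 * quenched N p) ^ 2 := by
    intro N
    rw [Finset.prod_pow, quenched_rec N hp]; ring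
  simp only [e, h1]
  ring

/-- Paley-Zygmund type bound -/
lemma paley {p K : ℝ} (hp : p ∈ Icc (0 : ℝ) 1) (hG : 0 < annealed μ p) (hK : 0 < K)
    (h2 : second μ p ≤ K * annealed μ p ^ 2) :
    (gw μ).real {N | quenched N p < annealed μ p / 2} ≤ 1 - 1 / (16 * K) := by
  set G := annealed μ p with hGdef
  have hA : MeasurableSet {N | quenched N p < G / 2} :=
    measurableSet_lt (measurable_quenched hp) measurable_const
  set l := 4 * K * G with hl
  have hl0 : 0 < l := by positivity
  have hpt : ∀ N, quenched N p ≤ G / 2 + l * ({N | quenched N p < G / 2}ᶜ).indicator 1 N +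
      l⁻¹ * quenched N p ^ 2 := by
    intro N
    have h0 := (quenched_mem N p).1
    have h3 : 0 ≤ l⁻¹ * quenched N p ^ 2 := by positivity
    by_cases hN : quenched N p < G / 2
    · rw [indicator_of_notMem (by simpa using hN)]; linarith
    · rw [indicator_of_mem (by simpa using hN)]
      simp only [Pi.one_apply, mul_one]
      by_cases h4 : quenched N p ≤ l
      · linarith
      · have : quenched N p ≤ l⁻¹ * quenched N p ^ 2 := by
          rw [le_inv_mul_iff₀ hl0]; nlinarith
        linarith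
  have hi1 : Integrable (({N | quenched N p < G / 2}ᶜ).indicator (1 : (List ℕ → ℕ) → ℝ)) (gw μ) :=
    (integrable_const _).indicator hA.compl
  have h5 := integral_mono (integrable_quenched μ hp)
    (((integrable_const (G / 2)).add (hi1.const_mul l)).add
      ((integrable_quenched_sq μ hp).const_mul l⁻¹)) hpt
  rw [integral_add' ((integrable_const (G / 2)).add (hi1.const_mul l))
      ((integrable_quenched_sq μ hp).const_mul l⁻¹),
    integral_add' (integrable_const (G / 2)) (hi1.const_mul l), integral_const_mul,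
    integral_const_mul, integral_indicator_one hA.compl, probReal_compl_eq_one_sub hA] at h5
  simp only [integral_const, probReal_univ, smul_eq_mul, one_mul] at h5
  change G ≤ G / 2 + l * _ + l⁻¹ * second μ p at h5
  have h6 : l⁻¹ * second μ p ≤ G / 4 := by
    rw [inv_mul_le_iff₀ hl0, hl]; nlinarith
  have h7 : G / 4 ≤ l * (1 - (gw μ).real {N | quenched N p < G / 2}) := by linarith
  have h8 : 1 / (16 * K) ≤ 1 - (gw μ).real {N | quenched N p < G / 2} := by
    rw [div_le_iff₀ (by positivity)]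
    rw [hl] at h7
    nlinarith
  linarith

/-- amplification through the binary subtree -/
lemma amplify {p θ : ℝ} (hp : p ∈ Ioc (0 : ℝ) 1) (h2 : μ {n | n < 2} = 0) (n : ℕ) :
    (gw μ).real {N | quenched N p < p ^ n * θ} ≤ (gw μ).real {N | quenched N p < θ} ^ (2 ^ n) := by
  have hp' : p ∈ Icc (0 : ℝ) 1 := ⟨hp.1.le, hp.2⟩
  induction n with
  | zero => simp
  | succ n ih =>
    let t : Set (List ℕ → ℕ) := {N | quenched N p < p ^ n * θ}
    have ht : MeasurableSet t := measurableSet_lt (measurable_quenched hp') measurable_const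
    have e1 := measure_split μ (A := univ) .univ (Finset.range 2) (t := fun _ => t) fun _ => ht
    have e2 := measure_split μ (A := {n | n < 2}) .of_discrete ∅ (t := fun _ => t) fun _ => ht
    rw [h2, zero_mul] at e2
    have hsub : {N | quenched N p < p ^ (n + 1) * θ} ⊆
        {ω : List ℕ → ℕ | ω [] ∈ {n | n < 2} ∧ ∀ i ∈ (∅ : Finset ℕ), sub ω i ∈ t} ∪
        {ω : List ℕ → ℕ | ω [] ∈ univ ∧ ∀ i ∈ Finset.range 2, sub ω i ∈ t} := by
      intro N hN
      by_cases h : N [] < 2
      · exact Or.inl ⟨h, by simp⟩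
      · refine Or.inr ⟨trivial, fun i hi => ?_⟩
        have h3 := mul_quenched_sub_le N hp' (i := i) (by have := Finset.mem_range.mp hi; omega)
        have h4 : p * quenched (sub N i) p < p * (p ^ n * θ) := by
          refine h3.trans_lt (lt_of_lt_of_eq hN ?_); ring
        exact lt_of_mul_lt_mul_left h4 hp.1.le
    have h5 : gw μ {N | quenched N p < p ^ (n + 1) * θ} ≤ gw μ t * gw μ t := by
      refine (measure_mono hsub).trans ((measure_union_le _ _).trans ?_)
      change PW μ _ + PW μ _ ≤ PW μ t * PW μ t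
      rw [e1, e2]
      simp [pow_two]
    have h6 : (gw μ).real {N | quenched N p < p ^ (n + 1) * θ} ≤ (gw μ).real t * (gw μ).real t := by
      rw [measureReal_def, measureReal_def, ← ENNReal.toReal_mul]
      exact ENNReal.toReal_mono (ENNReal.mul_ne_top (measure_ne_top _ _) (measure_ne_top _ _)) h5
    refine h6.trans ?_
    rw [pow_succ 2 n, pow_mul, pow_two]
    exact mul_le_mul ih ih measureReal_nonneg (pow_nonneg measureReal_nonneg _)

end Pool.Agent.MP_97806e_pr.H84
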