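import Pool.Agent.MP_97806e_pr.H84.Defs

namespace Pool.Agent.MP_97806e_pr.H84

open MeasureTheory ProbabilityTheory Filter Topology Set

/-- the configuration seen from the child `i` of the root -/
def sub {X : Type} (ω : List ℕ → X) (i : ℕ) : List ℕ → X := fun w => ω (i :: w)

/-- the i.i.d. product measure on words -/
noncomputable abbrev PW {X : Type} [MeasurableSpace X] (ν : Measure X) : Measure (List ℕ → X) :=
  Measure.infinitePi fun _ : List ℕ => ν

section split
variable {X : Type} [MeasurableSpace X] (ν : Measure X) [IsProbabilityMeasure ν]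

lemma measurable_sub (i : ℕ) : Measurable (fun ω : List ℕ → X => sub ω i) := by
  unfold sub; fun_prop

/-- gluing the root value and the rest -/
def glue (z : X × (ℕ × List ℕ → X)) : List ℕ → X
  | [] => z.1
  | i :: w => z.2 (i, w)

lemma measurable_glue : Measurable (glue (X := X)) := by
  refine measurable_pi_lambda _ fun l => ?_
  cases l with
  | nil => exact measurable_fst
  | cons i w => exact (measurable_pi_apply (i, w)).comp measurable_snd

lemma map_glue : (ν.prod (Measure.infinitePi fun _ : ℕ × List ℕ => ν)).map glue = PW ν := by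
  classical
  refine Measure.eq_infinitePi _ fun s t ht => ?_
  let c : ℕ × List ℕ → List ℕ := fun p => p.1 :: p.2
  have hc : Function.Injective c := by
    rintro ⟨a, b⟩ ⟨a', b'⟩ h
    simp only [c, List.cons.injEq] at h
    exact Prod.ext h.1 h.2
  let s' : Finset (ℕ × List ℕ) := s.preimage c hc.injOn
  have hpre : glue ⁻¹' (Set.pi s t) =
      (if [] ∈ s then t [] else univ) ×ˢ (Set.pi s' (fun p => t (c p))) := by
    ext ⟨x, f⟩
    simp only [mem_preimage, Set.mem_pi, Finset.mem_coe, mem_prod, s', Finset.mem_preimage]
    constructor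
    · intro h
      refine ⟨?_, fun p hp => h _ hp⟩
      split_ifs with h0
      · exact h _ h0
      · trivial
    · rintro ⟨h1, h2⟩ l hl
      cases l with
      | nil => rw [if_pos hl] at h1; exact h1
      | cons i w => exact h2 (i, w) hl
  rw [Measure.map_apply measurable_glue (.pi s.countable_toSet fun _ _ => ht _), hpre,
    Measure.prod_prod, Measure.infinitePi_pi _ (fun _ _ => ht _)]
  have h1 : ∏ p ∈ s', ν (t (c p)) = ∏ l ∈ s.filter (fun l => l ∈ Set.range c), ν (t l) := by
    convert Finset.prod_preimage' c s hc.injOn (fun l => ν (t l))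
  have h2 : s.filter (fun l => l ∈ Set.range c) = s.erase [] := by
    ext l
    simp only [Finset.mem_filter, mem_range, Finset.mem_erase, c]
    cases l with
    | nil => simp
    | cons i w => simp
  rw [h1, h2]
  split_ifs with h0
  · exact Finset.mul_prod_erase s (fun l => ν (t l)) h0
  · rw [Finset.erase_eq_of_notMem h0]; simp

lemma measurable_split :
    Measurable (fun ω : List ℕ → X => (ω [], fun i => sub ω i)) :=
  (measurable_pi_apply _).prodMk (measurable_pi_lambda _ fun i => measurable_sub i)

/-- the root value and the subtrees are independent, and the subtrees are copies of the whole -/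
lemma map_split : (PW ν).map (fun ω => (ω [], fun i => sub ω i)) =
    ν.prod (Measure.infinitePi fun _ : ℕ => PW ν) := by
  rw [← map_glue, Measure.map_map measurable_split measurable_glue]
  have : (fun ω : List ℕ → X => (ω [], fun i => sub ω i)) ∘ glue =
      Prod.map id (MeasurableEquiv.curry ℕ (List ℕ) X) := by
    ext ⟨x, f⟩ <;> rfl
  rw [this, ← Measure.map_prod_map _ _ measurable_id (MeasurableEquiv.measurable _),
    Measure.map_id]
  congr 1
  rw [map_glue]
  exact Measure.infinitePi_map_curry (fun _ _ => ν)

lemma measure_split {A : Set X} (hA : MeasurableSet A) (s : Finset ℕ)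
    {t : ℕ → Set (List ℕ → X)} (ht : ∀ i, MeasurableSet (t i)) :
    PW ν {ω | ω [] ∈ A ∧ ∀ i ∈ s, sub ω i ∈ t i} = ν A * ∏ i ∈ s, PW ν (t i) := by
  have : {ω : List ℕ → X | ω [] ∈ A ∧ ∀ i ∈ s, sub ω i ∈ t i} =
      (fun ω : List ℕ → X => (ω [], fun i => sub ω i)) ⁻¹' (A ×ˢ Set.pi s t) := by
    ext ω; simp
  rw [this, ← Measure.map_apply measurable_split
    (hA.prod (.pi s.countable_toSet fun _ _ => ht _)), map_split, Measure.prod_prod,
    Measure.infinitePi_pi _ (fun _ _ => ht _)]

end split

/-- the cluster reaches depth `n` -/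
def Reach : ℕ → (List ℕ → ℕ) → (List ℕ → Bool) → Prop
  | 0, _, _ => True
  | n + 1, N, ω => ∃ i, i < N [] ∧ sub ω i [] = true ∧ Reach n (sub N i) (sub ω i)

lemma nil_mem_cluster (N : List ℕ → ℕ) (ω : List ℕ → Bool) : [] ∈ cluster N ω := by
  intro u i h
  simp at h

lemma cons_mem_cluster (N : List ℕ → ℕ) (ω : List ℕ → Bool) (i : ℕ) (w : List ℕ) :
    i :: w ∈ cluster N ω ↔ i < N [] ∧ sub ω i [] = true ∧ w ∈ cluster (sub N i) (sub ω i) := by
  constructor
  · intro h
    refine ⟨(h [] i (by simp)).1, (h [] i (by simp)).2, fun u j hu => ?_⟩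
    exact h (i :: u) j (by simpa using hu)
  · rintro ⟨h1, h2, h3⟩ u j hu
    cases u with
    | nil =>
      have : j = i := by simpa using hu
      subst this
      exact ⟨h1, h2⟩
    | cons a u =>
      simp only [List.cons_append, List.cons_prefix_cons] at hu
      obtain ⟨rfl, hu⟩ := hu
      exact h3 u j hu

lemma reach_of_infinite (n : ℕ) : ∀ (N : List ℕ → ℕ) (ω : List ℕ → Bool),
    (cluster N ω).Infinite → Reach n N ω := by
  induction n with
  | zero => intro _ _ _; trivial
  | succ n ih =>
    intro N ω h
    by_contra hc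
    apply h
    have hsub : cluster N ω ⊆ {[]} ∪ ⋃ i ∈ {i | i < N [] ∧ sub ω i [] = true},
        (List.cons i) '' cluster (sub N i) (sub ω i) := by
      intro v hv
      cases v with
      | nil => exact Or.inl rfl
      | cons i w =>
        obtain ⟨h1, h2, h3⟩ := (cons_mem_cluster N ω i w).mp hv
        exact Or.inr (mem_biUnion (show i ∈ {i | i < N [] ∧ sub ω i [] = true} from ⟨h1, h2⟩)
          ⟨w, h3, rfl⟩)
    refine Finite.subset ((finite_singleton _).union (Finite.biUnion ?_ fun i hi => ?_)) hsub
    · exact (finite_lt_nat (N [])).subset fun i hi => hi.1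
    · refine Finite.image _ ?_
      by_contra hinf
      exact hc ⟨i, hi.1, hi.2, ih _ _ hinf⟩

lemma exists_of_reach (n : ℕ) : ∀ (N : List ℕ → ℕ) (ω : List ℕ → Bool),
    Reach n N ω → ∃ v ∈ cluster N ω, v.length = n := by
  induction n with
  | zero => intro N ω _; exact ⟨[], nil_mem_cluster N ω, rfl⟩
  | succ n ih =>
    rintro N ω ⟨i, h1, h2, h3⟩
    obtain ⟨w, hw, hl⟩ := ih _ _ h3
    exact ⟨i :: w, (cons_mem_cluster N ω i w).mpr ⟨h1, h2, hw⟩, by simp [hl]⟩

lemma infinite_iff (N : List ℕ → ℕ) (ω : List ℕ → Bool) :
    (cluster N ω).Infinite ↔ ∀ n, Reach n N ω := by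
  refine ⟨fun h n => reach_of_infinite n N ω h, fun h => ?_⟩
  refine Set.Infinite.of_image List.length (infinite_univ.mono fun n _ => ?_)
  exact exists_of_reach n N ω (h n)

lemma Reach.of_succ (n : ℕ) : ∀ (N : List ℕ → ℕ) (ω : List ℕ → Bool),
    Reach (n + 1) N ω → Reach n N ω := by
  induction n with
  | zero => intro _ _ _; trivial
  | succ n ih =>
    rintro N ω ⟨i, h1, h2, h3⟩
    exact ⟨i, h1, h2, ih _ _ h3⟩

lemma measurableSet_reach (n : ℕ) : ∀ N : List ℕ → ℕ, MeasurableSet {ω | Reach n N ω} := by
  induction n with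
  | zero => intro N; simp [Reach]
  | succ n ih =>
    intro N
    simp only [Reach, ofPred_exists]
    refine MeasurableSet.iUnion fun i => ?_
    refine (MeasurableSet.const _).inter (MeasurableSet.inter ?_ ?_)
    · exact measurableSet_eq_fun ((measurable_pi_apply _).comp (measurable_sub i)) measurable_const
    · exact (measurable_sub i) (ih (sub N i))

/-- the analytic recursion for the probability of reaching depth `n` -/
noncomputable def Q (p : ℝ) : ℕ → (List ℕ → ℕ) → ℝ
  | 0, _ => 1
  | n + 1, N => 1 - ∏ i ∈ Finset.range (N []), (1 - p * Q p n (sub N i))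

/-- percolation measure -/
noncomputable abbrev perc (p : unitInterval) : Measure (List ℕ → Bool) :=
  PW (bernoulliMeasure true false p)

lemma real_reach (p : unitInterval) (n : ℕ) : ∀ N : List ℕ → ℕ,
    (perc p).real {ω | Reach n N ω} = Q p n N ∧
    (perc p).real {ω | ω [] = true ∧ Reach n N ω} = p * Q p n N := by
  have hb : (bernoulliMeasure true false p).real {true} = p := by simp
  induction n with
  | zero =>
    intro N
    refine ⟨by simp [Reach, Q], ?_⟩
    have := measure_split (bernoulliMeasure true false p) (measurableSet_singleton true) ∅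
      (t := fun _ => univ) (fun _ => .univ)
    simp only [Finset.notMem_empty, mem_univ, imp_true_iff, Finset.prod_empty, mul_one,
      mem_singleton_iff] at this
    simp only [Reach, Q, mul_one, measureReal_def, this]
    exact hb
  | succ n ih =>
    intro N
    let t : ℕ → Set (List ℕ → Bool) := fun i => {ω | ω [] = true ∧ Reach n (sub N i) ω}ᶜ
    have hmt' : ∀ i, MeasurableSet {ω : List ℕ → Bool | ω [] = true ∧ Reach n (sub N i) ω} :=
      fun i => (measurableSet_eq_fun (measurable_pi_apply _) measurable_const).inter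
        (measurableSet_reach n _)
    have hmt : ∀ i, MeasurableSet (t i) := fun i => (hmt' i).compl
    have ht : ∀ i, (perc p).real (t i) = 1 - p * Q p n (sub N i) := by
      intro i
      simp only [t]
      rw [probReal_compl_eq_one_sub (hmt' i), (ih (sub N i)).2]
    have hiff : ∀ ω, (∀ i ∈ Finset.range (N []), sub ω i ∈ t i) ↔ ¬ Reach (n + 1) N ω := by
      intro ω
      simp only [t, Reach, Finset.mem_range, mem_compl_iff, mem_ofPred_eq, not_exists, not_and]
    have key : ∀ A : Set Bool, (perc p).real {ω | ω [] ∈ A ∧ ¬ Reach (n + 1) N ω} =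
        (bernoulliMeasure true false p).real A * (1 - Q p (n + 1) N) := by
      intro A
      have := measure_split (bernoulliMeasure true false p) (A := A) .of_discrete
        (Finset.range (N [])) hmt
      simp only [hiff] at this
      simp only [Q, sub_sub_cancel, ← ht, measureReal_def, this, ENNReal.toReal_mul,
        ENNReal.toReal_prod]
    have h1 : (perc p).real {ω | Reach (n + 1) N ω} = Q p (n + 1) N := by
      have h2 := key univ
      simp only [mem_univ, true_and, probReal_univ, one_mul] at h2
      have h3 := probReal_compl_eq_one_sub (μ := perc p) (measurableSet_reach (n + 1) N)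
      rw [compl_ofPred, h2] at h3
      linarith
    refine ⟨h1, ?_⟩
    have h2 := key {true}
    rw [hb] at h2
    have h3 := measureReal_inter_add_sdiff (μ := perc p) (s := {ω | ω [] = true})
      (measurableSet_reach (n + 1) N)
    have h4 : (perc p).real {ω | ω [] = true} = p := by
      have := measure_split (bernoulliMeasure true false p) (measurableSet_singleton true) ∅
        (t := fun _ => univ) (fun _ => .univ)
      simp only [Finset.notMem_empty, mem_univ, imp_true_iff, Finset.prod_empty, mul_one,
        mem_singleton_iff, and_true] at this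
      simp only [measureReal_def, this]
      exact hb
    have e1 : ({ω : List ℕ → Bool | ω [] = true} ∩ {ω | Reach (n + 1) N ω}) =
      {ω | ω [] = true ∧ Reach (n + 1) N ω} := rfl
    have e2 : ({ω : List ℕ → Bool | ω [] = true} \ {ω | Reach (n + 1) N ω}) =
      {ω | ω [] ∈ ({true} : Set Bool) ∧ ¬ Reach (n + 1) N ω} := rfl
    rw [e1, e2, h2, h4] at h3
    linarith

lemma tendsto_Q (N : List ℕ → ℕ) {p : ℝ} (hp : p ∈ Icc (0 : ℝ) 1) :
    Tendsto (fun n => Q p n N) atTop (𝓝 (quenched N p)) := by
  have e : {ω | (cluster N ω).Infinite} = ⋂ n, {ω | Reach n N ω} := by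
    ext ω; simp [infinite_iff]
  unfold quenched
  rw [projIcc_of_mem _ hp, e]
  have h := tendsto_measure_iInter_atTop (μ := perc ⟨p, hp⟩) (s := fun n => {ω | Reach n N ω})
    (fun n => (measurableSet_reach n N).nullMeasurableSet)
    (antitone_nat_of_succ_le fun n ω h => Reach.of_succ n N ω h) ⟨0, measure_ne_top _ _⟩
  have h2 := (ENNReal.tendsto_toReal (measure_ne_top _ _)).comp h
  refine h2.congr fun n => ?_
  exact (real_reach ⟨p, hp⟩ n N).1

end Pool.Agent.MP_97806e_pr.H84
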